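import Pool.Agent.D0H99.OD.Stm4

/-!
# Project OD, LWA: the moments of the law, for both parities
-/

set_option autoImplicit false

namespace Pool.Agent.D0H56.OD

open Pool.Agent.D0H99.OD
open Finset Filter Topology

theorem two_pow_sub_pos (i : ℕ) : (0 : ℝ) < (2 : ℝ) ^ (i + 1) - 1 := by
  have : (1 : ℝ) < (2 : ℝ) ^ (i + 1) := one_lt_pow₀ (by norm_num) (by omega)
  linarith

theorem ww_zero : ww 0 = 1 := by simp [ww]

theorem ww_succ (d : ℕ) : ww (d + 1) = ww d * (2 / ((2 : ℝ) ^ (d + 1) - 1)) := by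
  unfold ww
  rw [prod_range_succ]

theorem ww_pos (d : ℕ) : 0 < ww d := by
  unfold ww
  exact prod_pos fun i _ => div_pos two_pos (two_pow_sub_pos i)

theorem ww_succ_le (d : ℕ) (hd : 1 ≤ d) : ww (d + 1) ≤ (2 / 3) * ww d := by
  rw [ww_succ, mul_comm]
  refine mul_le_mul_of_nonneg_right ?_ (ww_pos d).le
  have h1 : (4 : ℝ) ≤ 2 ^ (d + 1) := by
    calc (4 : ℝ) = 2 ^ 2 := by norm_num
      _ ≤ 2 ^ (d + 1) := pow_le_pow_right₀ (by norm_num) (by omega)
  exact div_le_div_of_nonneg_left (by norm_num) (by norm_num) (by linarith)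

theorem summable_ww : Summable ww := by
  refine summable_of_ratio_norm_eventually_le (r := 2 / 3) (by norm_num) ?_
  filter_upwards [eventually_ge_atTop 1] with d hd
  rw [Real.norm_of_nonneg (ww_pos _).le, Real.norm_of_nonneg (ww_pos _).le]
  exact ww_succ_le d hd

theorem tsum_pos : 0 < ∑' j, ww j :=
  summable_ww.tsum_pos (fun i => (ww_pos i).le) 0 (ww_pos 0)

/-- `u d = ∏ 1 / (2 ^ i - 1)` -/
noncomputable def uu (d : ℕ) : ℝ := ww d / 2 ^ d

theorem ww_uu (d : ℕ) : ww (d + 1) = uu d + uu (d + 1) := by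
  have h := two_pow_sub_pos d
  have h2 : (2 : ℝ) ^ d ≠ 0 := by positivity
  unfold uu
  rw [ww_succ]
  field_simp
  ring

theorem base : HasSum (fun e => ww (2 * e)) ((∑' j, ww j) / 2) ∧
    HasSum (fun e => ww (2 * e + 1)) ((∑' j, ww j) / 2) := by
  have hE : Summable (fun e => ww (2 * e)) :=
    summable_ww.comp_injective (fun a b h => by simpa using h)
  have hO : Summable (fun e => ww (2 * e + 1)) :=
    summable_ww.comp_injective (fun a b h => by simpa using h)
  obtain ⟨E, hEE⟩ := hE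
  obtain ⟨O, hOO⟩ := hO
  have hsum : (∑' j, ww j) = E + O := (hEE.even_add_odd hOO).tsum_eq
  -- the even terms without the first one
  have hE' : HasSum (fun e => ww (2 * (e + 1))) (E - ww 0) := by
    have := (hasSum_nat_add_iff' (f := fun e => ww (2 * e)) 1).2 hEE
    simpa using this
  have hd := (hOO.sub hE').tendsto_sum_nat
  have htel : ∀ n, ∑ e ∈ range n, (ww (2 * e + 1) - ww (2 * (e + 1))) = 1 - uu (2 * n) := by
    intro n
    induction n with
    | zero => simp [uu, ww_zero]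
    | succ n ih =>
      rw [sum_range_succ, ih, ww_uu (2 * n), show 2 * (n + 1) = 2 * n + 1 + 1 by ring,
        ww_uu (2 * n + 1)]
      ring
  have hu0 : Tendsto (fun n => uu (2 * n)) atTop (𝓝 0) := by
    have h1 : Tendsto (fun n => ww (2 * n)) atTop (𝓝 0) := hEE.summable.tendsto_atTop_zero
    refine squeeze_zero (fun n => ?_) (fun n => ?_) h1
    · exact div_nonneg (ww_pos _).le (by positivity)
    · exact div_le_self (ww_pos _).le (one_le_pow₀ (by norm_num))
  have h2 : Tendsto (fun n => ∑ e ∈ range n, (ww (2 * e + 1) - ww (2 * (e + 1)))) atTop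
      (𝓝 1) := by
    simp only [htel]
    have := tendsto_const_nhds (x := (1 : ℝ)) (f := atTop (α := ℕ)) |>.sub hu0
    simpa using this
  have h3 : O - (E - ww 0) = 1 := tendsto_nhds_unique hd h2
  rw [ww_zero] at h3
  have h4 : O = E := by linarith
  subst h4
  rw [hsum]
  constructor
  · convert hEE using 1; ring
  · convert hOO using 1; ring

/-- `ww d f_k(2 ^ d)` -/
noncomputable def GG (k d : ℕ) : ℝ := ww d * ∏ i ∈ range k, ((2 : ℝ) ^ d - 2 ^ i)

theorem GG_zero (k : ℕ) : GG (k + 1) 0 = 0 := by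
  unfold GG
  rw [prod_range_succ']
  simp

theorem GG_succ (k d : ℕ) : GG (k + 1) (d + 1) = 2 ^ (k + 1) * GG k d := by
  unfold GG
  rw [prod_range_succ', ww_succ]
  have h := two_pow_sub_pos d
  have h1 : ∏ i ∈ range k, ((2 : ℝ) ^ (d + 1) - 2 ^ (i + 1)) =
      2 ^ k * ∏ i ∈ range k, ((2 : ℝ) ^ d - 2 ^ i) := by
    rw [← card_range k, ← prod_const, card_range, ← prod_mul_distrib]
    refine prod_congr rfl fun i _ => ?_
    rw [pow_succ, pow_succ]
    ring
  rw [h1, pow_zero]
  field_simp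
  ring

theorem sums (k : ℕ) : HasSum (fun e => GG k (2 * e)) (2 ^ (k * (k + 1) / 2) * ((∑' j, ww j) / 2)) ∧
    HasSum (fun e => GG k (2 * e + 1)) (2 ^ (k * (k + 1) / 2) * ((∑' j, ww j) / 2)) := by
  induction k with
  | zero => simpa [GG] using base
  | succ k ih =>
    have hexp : (k + 1) * (k + 1 + 1) / 2 = (k + 1) + k * (k + 1) / 2 := by
      rw [show (k + 1) * (k + 1 + 1) = k * (k + 1) + 2 * (k + 1) by ring,
        Nat.add_mul_div_left _ _ (by norm_num)]
      ring
    rw [hexp, pow_add, mul_assoc]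
    constructor
    · have h1 : HasSum (fun e => GG (k + 1) (2 * (e + 1)))
          (2 ^ (k + 1) * (2 ^ (k * (k + 1) / 2) * ((∑' j, ww j) / 2))) := by
        have := ih.2.mul_left ((2 : ℝ) ^ (k + 1))
        refine this.congr_fun ?_
        intro e
        rw [show 2 * (e + 1) = 2 * e + 1 + 1 by ring, GG_succ]
      have h2 := (hasSum_nat_add_iff (f := fun e => GG (k + 1) (2 * e)) 1).1 h1
      simpa [GG_zero] using h2
    · have := ih.1.mul_left ((2 : ℝ) ^ (k + 1))
      refine this.congr_fun ?_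
      intro e
      rw [GG_succ]

/-- **LWA.** -/
theorem t_LWA : S_LWA := by
  refine ⟨summable_ww, fun k ρ hρ => ?_⟩
  have hS := tsum_pos
  have key : HasSum (fun e => GG k (2 * e + ρ)) (2 ^ (k * (k + 1) / 2) * ((∑' j, ww j) / 2)) := by
    interval_cases ρ
    · exact (sums k).1
    · exact (sums k).2
  have h1 := key.div_const (∑' j, ww j)
  have h2 : (2 : ℝ) ^ (k * (k + 1) / 2) * ((∑' j, ww j) / 2) / (∑' j, ww j) =
      2 ^ (k * (k + 1) / 2) / 2 := by
    field_simp
  rw [h2] at h1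
  refine h1.congr_fun ?_
  intro e
  unfold aa GG
  ring

end Pool.Agent.D0H56.OD
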