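import Pool.Agent.D0H56.OD.Lwa

/-!
# Project OD, NUM: numerical values of the law
-/

set_option autoImplicit false

namespace Pool.Agent.D0H56.OD

open Pool.Agent.D0H99.OD
open Finset Filter Topology

theorem ww_five : ww 5 = 32 / 9765 := by
  norm_num [ww, prod_range_succ]

theorem sum_five : ∑ d ∈ range 5, ww d = 1 + 2 + 4 / 3 + 8 / 21 + 16 / 315 := by
  norm_num [ww, prod_range_succ, sum_range_succ]

theorem ww_tail (i : ℕ) : ww (i + 5) ≤ 32 / 9765 * (2 / 63 : ℝ) ^ i := by
  induction i with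
  | zero => simp [ww_five]
  | succ i ih =>
    rw [show i + 1 + 5 = (i + 5) + 1 by ring, ww_succ, pow_succ (2 / 63 : ℝ) i, ← mul_assoc]
    have h1 : (64 : ℝ) ≤ 2 ^ (i + 5 + 1) := by
      calc (64 : ℝ) = 2 ^ 6 := by norm_num
        _ ≤ 2 ^ (i + 5 + 1) := pow_le_pow_right₀ (by norm_num) (by omega)
    refine mul_le_mul ih ?_ (div_nonneg (by norm_num) (two_pow_sub_pos _).le) (by positivity)
    exact div_le_div_of_nonneg_left (by norm_num) (by norm_num) (by linarith)

theorem tsum_le : ∑' j, ww j ≤ 10000 / 2097 := by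
  have h1 := summable_ww.sum_add_tsum_nat_add 5
  have h2 : ∑' i, ww (i + 5) ≤ ∑' i, 32 / 9765 * (2 / 63 : ℝ) ^ i := by
    refine Summable.tsum_le_tsum ww_tail ?_ ?_
    · exact (summable_nat_add_iff 5).2 summable_ww
    · exact (summable_geometric_of_lt_one (by norm_num) (by norm_num)).mul_left _
  rw [tsum_mul_left, tsum_geometric_of_lt_one (by norm_num) (by norm_num)] at h2
  rw [← h1, sum_five]
  norm_num at h2 ⊢
  linarith

/-- **NUM.** -/
theorem t_NUM : S_NUM := by
  have hS := tsum_pos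
  have hle := tsum_le
  refine ⟨summable_ww, ?_, ?_, fun m => ⟨?_, ?_⟩, ?_⟩
  · unfold FF
    rw [le_div_iff₀ hS]
    simp [ww_zero]
    linarith
  · unfold FF
    rw [le_div_iff₀ hS]
    have : ∑ d ∈ range (1 + 1), ww d = 3 := by
      norm_num [ww, prod_range_succ, sum_range_succ]
    rw [this]
    linarith
  · exact div_nonneg (sum_nonneg fun d _ => (ww_pos d).le) hS.le
  · unfold FF
    rw [div_le_one hS]
    exact summable_ww.sum_le_tsum _ fun d _ => (ww_pos d).le
  · have h1 := (summable_ww.hasSum.tendsto_sum_nat.comp (tendsto_add_atTop_nat 1)).div_const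
      (∑' j, ww j)
    rw [div_self hS.ne'] at h1
    exact h1

end Pool.Agent.D0H56.OD
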